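import Pool.Agent.MWH.StmtsB
import Pool.Agent.MWS.StmtsA

/-!
# Block MWH, row J2S: light letters of degree two over `J 2`
-/

namespace Pool.Agent.MWH.H19

open Pool.Agent.Helper14_MV Pool.Agent.Helper2_MV Pool.Agent.MVO Pool.Agent.MWL Pool.Agent.MWS
open Pool.Agent.MWH

theorem TrA.up {β θ : FIC} (hle : β ≤ θ) {k : ℕ} {a b : ℕ → ℕ} {i : ℕ} (h : TrA β k a b i) :
    TrA θ k a b i := fun s s' hs hs' => hle _ _ (h s s' hs hs')

/-- the four cases -/
theorem core (h5 : KhhStmt) (h6 : Kk1Stmt) (h7 : Kk2Stmt) {β : FIC} (hS : S8 β) {k : ℕ}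
    {a b : ℕ → ℕ} {i : ℕ} (hV : Vd k a b i)
    (hA : 2 ≤ a i ∨ (a i = 1 ∧ ∃ m, i < m ∧ m ≤ k ∧ 2 ≤ a m))
    (hB : 2 ≤ b i ∨ (b i = 1 ∧ ∃ m, i < m ∧ m ≤ k ∧ 2 ≤ b m)) : TrA β k a b i := by
  rcases hA with hA | ⟨hA, hm⟩
  · rcases hB with hB | ⟨hB, hn⟩
    · exact h5 β hS k a b i hV hA hB
    · exact h6 β hS k a b i hV (Or.inl ⟨hA, hn⟩)
  · rcases hB with hB | ⟨hB, hn⟩
    · exact h6 β hS k a b i hV (Or.inr ⟨hB, hm⟩)
    · exact h7 β hS k a b i hV hA hB hm hn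

/-- the entry of `ad 1 a v` at `v` and the other entries -/
theorem ad_self (a : ℕ → ℕ) (v : ℕ) : ad 1 a v v = a v + 2 := by
  unfold ad
  rw [if_pos rfl]

theorem ad_ne (a : ℕ → ℕ) {v j : ℕ} (h : j ≠ v) : ad 1 a v j = a j := by
  unfold ad
  rw [if_neg h, Nat.add_zero]

theorem ad_le (a : ℕ → ℕ) (v j : ℕ) : a j ≤ ad 1 a v j := by
  unfold ad
  omega

/-- after the absorption the letter of degree two satisfies the condition of `core` -/
theorem ll2_cond {k : ℕ} {a : ℕ → ℕ} {i u v : ℕ} (hL : LL2 k a u v) (hik : i ≤ k)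
    (hai : a i ≠ 0) :
    2 ≤ ad 1 a v i ∨ (ad 1 a v i = 1 ∧ ∃ m, i < m ∧ m ≤ k ∧ 2 ≤ ad 1 a v m) := by
  by_cases hiv : i = v
  · left
    rw [hiv, ad_self]
    omega
  · have hiu : i = u := by
      by_contra hne
      exact hai (hL.az i hik hne hiv)
    right
    refine ⟨?_, v, ?_, hL.vk, ?_⟩
    · rw [ad_ne a hiv, hiu]
      exact hL.au
    · rw [hiu]
      exact hL.uv
    · rw [ad_self]
      omega

theorem j2s (h1 : LrnStmt) (h2 : Lt2Stmt) (h3 : AbiStmt) (h4 : AbjStmt) (h5 : KhhStmt)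
    (h6 : Kk1Stmt) (h7 : Kk2Stmt) : J2sStmt := by
  intro β θ hS hle hJ k a b i u v hV hL hB
  have hH : BaseH β := hS.toBaseH
  have hLR : LR 1 (FC.ofFIC θ) := h1 β θ hH.toBaseR hle
  have hva : Ab 1 (FC.ofFIC θ) k a v := (h2 _ hLR k a u v hL).2 hJ
  have hvb : v = i ∨ b v = 0 := by
    by_cases hvi : v = i
    · exact Or.inl hvi
    · right
      rcases hV.un v hL.vk hvi with h | h
      · exact absurd h (by rw [hL.av]; omega)
      · exact h
  obtain ⟨hV1, hR1⟩ := h3 β θ hH hle k a b i hV v hL.vk hva hvb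
  have hA := ll2_cond hL hV.ik hV.ai
  have key : TrA θ k (ad 1 a v) b i := by
    have simple : (2 ≤ b i ∨ (b i = 1 ∧ ∃ m, i < m ∧ m ≤ k ∧ 2 ≤ b m)) →
        TrA θ k (ad 1 a v) b i := fun h => TrA.up hle (core h5 h6 h7 hS hV1 hA h)
    rcases hB with ⟨u', v', hLb⟩ | hB | hB
    · have hvb' : Ab 1 (FC.ofFIC θ) k b v' := (h2 _ hLR k b u' v' hLb).2 hJ
      have hc : v' = i ∨ ad 1 a v v' = 0 := by
        by_cases hvi : v' = i
        · exact Or.inl hvi
        · right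
          rcases hV1.un v' hLb.vk hvi with h | h
          · exact h
          · exact absurd h (by rw [hLb.av]; omega)
      obtain ⟨hV2, hR2⟩ := h4 β θ hH hle k (ad 1 a v) b i hV1 v' hLb.vk hvb' hc
      have hT : TrA θ k (ad 1 a v) (ad 1 b v') i :=
        TrA.up hle (core h5 h6 h7 hS hV2 hA (ll2_cond hLb hV.ik hV.bi))
      intro s s' hs hs'
      have up : ∀ t, Vs (ad 1 a v) b i t → Vs (ad 1 a v) (ad 1 b v') i t := by
        intro t ht hto
        rcases ht hto with h | h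
        · exact Or.inl h
        · exact Or.inr (le_trans h (ad_le b v' i))
      exact θ.trans (hR2 s hs) (θ.trans (hT s s' (up s hs) (up s' hs')) (RR.symm (hR2 s' hs')))
    · exact simple (Or.inl hB)
    · exact simple (Or.inr hB)
  intro s s' hs hs'
  have up : ∀ t, Vs a b i t → Vs (ad 1 a v) b i t := by
    intro t ht hto
    rcases ht hto with h | h
    · exact Or.inl (le_trans h (ad_le a v i))
    · exact Or.inr h
  exact θ.trans (hR1 s hs) (θ.trans (key s s' (up s hs) (up s' hs')) (RR.symm (hR1 s' hs')))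

end Pool.Agent.MWH.H19
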